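import Mathlib

/-!
# SC47: elementary bounds for `∏ (1 - u b_j)`
-/

namespace SC47

open Real

/-- `e^s ≤ 1.44 e^{0.72 s²}` for every real `s`. -/
lemma exp_le_gauss (s : ℝ) : Real.exp s ≤ 1.44 * Real.exp (0.72 * s ^ 2) := by
  have h1 : Real.exp (25 / 72 : ℝ) ≤ 1.44 := by
    have h := Real.exp_one_lt_d9
    have h2 : Real.exp (25 / 72 : ℝ) ^ 72 = Real.exp 1 ^ 25 := by
      rw [← Real.exp_nat_mul, ← Real.exp_nat_mul]
      norm_num
    have h3 : Real.exp 1 ^ 25 ≤ (2.7182818286 : ℝ) ^ 25 :=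
      pow_le_pow_left₀ (Real.exp_pos _).le h.le 25
    have h4 : (2.7182818286 : ℝ) ^ 25 ≤ (1.44 : ℝ) ^ 72 := by norm_num
    have h5 : Real.exp (25 / 72 : ℝ) ^ 72 ≤ (1.44 : ℝ) ^ 72 := by
      rw [h2]; exact h3.trans h4
    exact le_of_pow_le_pow_left₀ (by norm_num) (by norm_num) h5
  have h6 : s ≤ 25 / 72 + 0.72 * s ^ 2 := by nlinarith [sq_nonneg (s - 25 / 36)]
  calc Real.exp s ≤ Real.exp (25 / 72 + 0.72 * s ^ 2) := Real.exp_le_exp.mpr h6
    _ = Real.exp (25 / 72) * Real.exp (0.72 * s ^ 2) := by rw [Real.exp_add]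
    _ ≤ 1.44 * Real.exp (0.72 * s ^ 2) :=
      mul_le_mul_of_nonneg_right h1 (Real.exp_pos _).le

/-- `|(1-y)e^y - 1| ≤ e^{0.72|y|²} - 1`. -/
lemma norm_factor_sub_one (y : ℂ) :
    ‖(1 - y) * Complex.exp y - 1‖ ≤ Real.exp (0.72 * ‖y‖ ^ 2) - 1 := by
  set r := ‖y‖ with hr
  have hr0 : 0 ≤ r := norm_nonneg y
  let φ : ℝ → ℂ := fun t => (1 - (t : ℂ) * y) * Complex.exp ((t : ℂ) * y) - 1
  let φ' : ℝ → ℂ := fun t => -((t : ℂ) * y ^ 2 * Complex.exp ((t : ℂ) * y))
  let B : ℝ → ℝ := fun t => Real.exp (0.72 * (t * r) ^ 2) - 1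
  let B' : ℝ → ℝ := fun t => 1.44 * t * r ^ 2 * Real.exp (0.72 * (t * r) ^ 2)
  have hφ : ∀ t : ℝ, HasDerivAt φ (φ' t) t := by
    intro t
    have h1 : HasDerivAt (fun t : ℝ => (t : ℂ) * y) y t := by
      simpa using (Complex.ofRealCLM.hasDerivAt (x := t)).mul_const y
    have h2 := (((hasDerivAt_const t (1 : ℂ)).sub h1).mul h1.cexp).sub_const (1 : ℂ)
    refine h2.congr_deriv ?_
    simp only [φ', Pi.sub_apply]
    ring
  have hB : ∀ t : ℝ, HasDerivAt B (B' t) t := by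
    intro t
    have h1 : HasDerivAt (fun t : ℝ => 0.72 * (t * r) ^ 2) (1.44 * t * r ^ 2) t := by
      have h0 : HasDerivAt (fun t : ℝ => t * r) r t := by
        simpa using (hasDerivAt_id t).mul_const r
      have := (h0.pow 2).const_mul (0.72 : ℝ)
      refine this.congr_deriv ?_
      norm_num
      ring
    have := (h1.exp).sub_const (1 : ℝ)
    refine this.congr_deriv ?_
    simp only [B']
    ring
  have key : ∀ t ∈ Set.Icc (0 : ℝ) 1, ‖φ t‖ ≤ B t := by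
    refine image_norm_le_of_norm_deriv_right_le_deriv_boundary (f' := φ') (B' := B')
      (fun t _ => (hφ t).continuousAt.continuousWithinAt)
      (fun t _ => (hφ t).hasDerivWithinAt) ?_ (fun t => hB t) ?_
    · simp [φ, B]
    · intro t ht
      simp only [φ', B']
      rw [norm_neg, norm_mul, norm_mul, norm_pow, Complex.norm_real, Real.norm_eq_abs,
        abs_of_nonneg ht.1, Complex.norm_exp, ← hr]
      have h1 : ((t : ℂ) * y).re ≤ t * r := by
        have : ((t : ℂ) * y).re = t * y.re := by simp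
        rw [this]
        exact mul_le_mul_of_nonneg_left ((Complex.re_le_norm y)) ht.1
      have h2 : Real.exp (((t : ℂ) * y).re) ≤ 1.44 * Real.exp (0.72 * (t * r) ^ 2) :=
        (Real.exp_le_exp.mpr h1).trans (exp_le_gauss _)
      have h3 : 0 ≤ t * r ^ 2 := mul_nonneg ht.1 (by positivity)
      nlinarith [mul_le_mul_of_nonneg_left h2 h3]
  have := key 1 ⟨by norm_num, le_refl _⟩
  simpa [φ, B] using this

/-- product version -/
lemma norm_prod_sub_one {ι : Type*} (s : Finset ι) (e : ι → ℂ) (c : ι → ℝ)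
    (h : ∀ i ∈ s, ‖e i - 1‖ ≤ Real.exp (c i) - 1) :
    ‖∏ i ∈ s, e i - 1‖ ≤ Real.exp (∑ i ∈ s, c i) - 1 := by
  classical
  induction s using Finset.induction_on with
  | empty => simp
  | insert a s ha ih =>
    rw [Finset.prod_insert ha, Finset.sum_insert ha, Real.exp_add]
    have h1 := h a (Finset.mem_insert_self a s)
    have h2 := ih (fun i hi => h i (Finset.mem_insert_of_mem hi))
    set P := ∏ i ∈ s, e i
    set S := Real.exp (∑ i ∈ s, c i)
    have hP : ‖P‖ ≤ S := by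
      have : ‖P‖ ≤ ‖P - 1‖ + ‖(1 : ℂ)‖ := by
        have := norm_add_le (P - 1) 1
        simpa using this
      simp at this
      linarith
    have h3 : e a * P - 1 = (e a - 1) * P + (P - 1) := by ring
    rw [h3]
    have h4 : ‖(e a - 1) * P + (P - 1)‖ ≤ ‖e a - 1‖ * ‖P‖ + ‖P - 1‖ := by
      have := norm_add_le ((e a - 1) * P) (P - 1)
      rwa [norm_mul] at this
    have h5 : ‖e a - 1‖ * ‖P‖ ≤ (Real.exp (c a) - 1) * S := by
      have h50 : 0 ≤ Real.exp (c a) - 1 := (norm_nonneg _).trans h1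
      exact mul_le_mul h1 hP (norm_nonneg _) h50
    nlinarith

lemma norm_one_sub_le (z : ℂ) : ‖1 - z‖ ≤ Real.exp (-z.re + ‖z‖ ^ 2 / 2) := by
  have h1 : ‖1 - z‖ ^ 2 = 1 - 2 * z.re + ‖z‖ ^ 2 := by
    rw [← Complex.normSq_eq_norm_sq, ← Complex.normSq_eq_norm_sq, Complex.normSq_apply,
      Complex.normSq_apply]
    simp
    ring
  have h2 : 1 - 2 * z.re + ‖z‖ ^ 2 ≤ Real.exp (-2 * z.re + ‖z‖ ^ 2) := by
    have := Real.add_one_le_exp (-2 * z.re + ‖z‖ ^ 2)
    linarith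
  have h3 : Real.exp (-2 * z.re + ‖z‖ ^ 2) = Real.exp (-z.re + ‖z‖ ^ 2 / 2) ^ 2 := by
    rw [← Real.exp_nat_mul]
    congr 1
    push_cast
    ring
  rw [h3] at h2
  rw [← h1] at h2
  exact abs_le_of_sq_le_sq' h2 (Real.exp_pos _).le |>.2

end SC47
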