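import Mathlib

/-!
# SC47: the one-parameter inequality `∫ M g > 0`
-/

namespace SC47

open Real MeasureTheory intervalIntegral

/-- weight -/
noncomputable def Mw (v : ℝ) : ℝ := 1 + v ^ 2 / 4 + v ^ 4 / 4

lemma Mw_pos (v : ℝ) : 0 < Mw v := by unfold Mw; positivity

lemma continuous_Mw : Continuous Mw := by unfold Mw; fun_prop

lemma integral_Mw (a b : ℝ) :
    ∫ v in a..b, Mw v = (b + b ^ 3 / 12 + b ^ 5 / 20) - (a + a ^ 3 / 12 + a ^ 5 / 20) := by
  have h : ∀ x ∈ Set.uIcc a b, HasDerivAt (fun v : ℝ => v + v ^ 3 / 12 + v ^ 5 / 20) (Mw x) x := by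
    intro x _
    have := ((hasDerivAt_id x).add ((hasDerivAt_pow 3 x).div_const 12)).add
      ((hasDerivAt_pow 5 x).div_const 20)
    refine (this.congr_deriv ?_)
    unfold Mw
    norm_num
    ring
  rw [intervalIntegral.integral_eq_sub_of_hasDerivAt h (continuous_Mw.intervalIntegrable _ _)]

/-- `κ' = cos(π/8)` lower bound -/
lemma cos_pi_div_eight_ge : (0.9238 : ℝ) ≤ Real.cos (π / 8) := by
  rw [Real.cos_pi_div_eight]
  have h1 : (1.41421 : ℝ) ≤ √2 := by
    apply Real.le_sqrt_of_sq_le; norm_num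
  have h2 : (1.8477 : ℝ) ≤ √(2 + √2) := by
    apply Real.le_sqrt_of_sq_le
    nlinarith
  linarith

/-- general: exponential weights are bounded by a constant level -/
lemma integral_exp_le (R q a b : ℝ) (hR : 0 ≤ R) (hab : a ≤ b) (p : ℝ → ℝ) (hp : Continuous p)
    (h : ∀ v ∈ Set.Icc a b, q ≤ p v) :
    ∫ v in a..b, Mw v * Real.exp (-(R * p v)) ≤ Real.exp (-(R * q)) * ∫ v in a..b, Mw v := by
  rw [← intervalIntegral.integral_const_mul]
  apply intervalIntegral.integral_mono_on hab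
  · apply Continuous.intervalIntegrable
    have := continuous_Mw
    fun_prop
  · apply Continuous.intervalIntegrable
    have := continuous_Mw
    fun_prop
  · intro v hv
    have h1 : Real.exp (-(R * p v)) ≤ Real.exp (-(R * q)) := by
      apply Real.exp_le_exp.mpr
      have := mul_le_mul_of_nonneg_left (h v hv) hR
      linarith
    calc Mw v * Real.exp (-(R * p v)) ≤ Mw v * Real.exp (-(R * q)) :=
          mul_le_mul_of_nonneg_left h1 (Mw_pos v).le
      _ = _ := by ring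

lemma integral_exp_ge (R q a b : ℝ) (hR : 0 ≤ R) (hab : a ≤ b) (p : ℝ → ℝ) (hp : Continuous p)
    (h : ∀ v ∈ Set.Icc a b, p v ≤ q) :
    Real.exp (-(R * q)) * ∫ v in a..b, Mw v ≤ ∫ v in a..b, Mw v * Real.exp (-(R * p v)) := by
  rw [← intervalIntegral.integral_const_mul]
  apply intervalIntegral.integral_mono_on hab
  · apply Continuous.intervalIntegrable
    have := continuous_Mw
    fun_prop
  · apply Continuous.intervalIntegrable
    have := continuous_Mw
    fun_prop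
  · intro v hv
    have h1 : Real.exp (-(R * q)) ≤ Real.exp (-(R * p v)) := by
      apply Real.exp_le_exp.mpr
      have := mul_le_mul_of_nonneg_left (h v hv) hR
      linarith
    calc Real.exp (-(R * q)) * Mw v ≤ Real.exp (-(R * p v)) * Mw v :=
          mul_le_mul_of_nonneg_right h1 (Mw_pos v).le
      _ = _ := by ring

/-- first piece -/
lemma first_piece (R : ℝ) (hR : 0 ≤ R) (gam : ℝ) (hg : gam ≤ 1.0183) :
    ∫ v in (0:ℝ)..(1/2), Mw v * Real.exp (-(R * (v ^ 2 - gam * v ^ 4))) ≤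
      1.1886 * ∫ w in (0:ℝ)..0.43, Mw w * Real.exp (-(R * w ^ 2)) := by
  have h1 : ∫ v in (0:ℝ)..(1/2), Mw v * Real.exp (-(R * (v ^ 2 - gam * v ^ 4))) ≤
      ∫ v in (0:ℝ)..(1/2), Mw v * Real.exp (-(R * (0.86 * v) ^ 2)) := by
    apply intervalIntegral.integral_mono_on (by norm_num)
    · apply Continuous.intervalIntegrable
      have := continuous_Mw
      fun_prop
    · apply Continuous.intervalIntegrable
      have := continuous_Mw
      fun_prop
    · intro v hv
      apply mul_le_mul_of_nonneg_left _ (Mw_pos v).le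
      apply Real.exp_le_exp.mpr
      have hv2 : v ^ 2 ≤ 1 / 4 := by nlinarith [hv.1, hv.2]
      have hv0 : 0 ≤ v ^ 2 := sq_nonneg v
      have : (0.86 * v) ^ 2 ≤ v ^ 2 - gam * v ^ 4 := by
        have e : v ^ 4 = v ^ 2 * v ^ 2 := by ring
        have e2 : gam * v ^ 4 ≤ 1.0183 * v ^ 4 := by
          apply mul_le_mul_of_nonneg_right hg (by positivity)
        have e3 : v ^ 4 ≤ v ^ 2 * (1 / 4) := by rw [e]; exact mul_le_mul_of_nonneg_left hv2 hv0
        nlinarith
      have := mul_le_mul_of_nonneg_left this hR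
      linarith
  have h2 : ∫ v in (0:ℝ)..(1/2), Mw v * Real.exp (-(R * (0.86 * v) ^ 2)) =
      ∫ v in (0:ℝ)..(1/2), (fun w => Mw (w / 0.86) * Real.exp (-(R * w ^ 2))) (0.86 * v) := by
    apply intervalIntegral.integral_congr
    intro v _
    simp only
    congr 2
    field_simp
  rw [h2, intervalIntegral.integral_comp_mul_left (fun w => Mw (w / 0.86) * Real.exp (-(R * w ^ 2)))
    (by norm_num : (0.86:ℝ) ≠ 0)] at h1
  refine h1.trans ?_
  have e1 : (0.86 : ℝ) * 0 = 0 := by norm_num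
  have e2 : (0.86 : ℝ) * (1 / 2) = 0.43 := by norm_num
  rw [e1, e2, smul_eq_mul, ← intervalIntegral.integral_const_mul,
    ← intervalIntegral.integral_const_mul]
  apply intervalIntegral.integral_mono_on (by norm_num)
  · apply Continuous.intervalIntegrable
    have := continuous_Mw
    fun_prop
  · apply Continuous.intervalIntegrable
    have := continuous_Mw
    fun_prop
  · intro w hw
    have hw0 : 0 ≤ w ^ 2 := sq_nonneg w
    have hw2 : w ^ 2 ≤ 0.1849 := by nlinarith [hw.1, hw.2]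
    have hM : (0.86:ℝ)⁻¹ * Mw (w / 0.86) ≤ 1.1886 * Mw w := by
      unfold Mw
      have e4 : w ^ 4 = w ^ 2 * w ^ 2 := by ring
      have e5 : w ^ 4 ≤ w ^ 2 * 0.1849 := by rw [e4]; exact mul_le_mul_of_nonneg_left hw2 hw0
      rw [div_pow, div_pow]
      norm_num
      nlinarith
    calc (0.86:ℝ)⁻¹ * (Mw (w / 0.86) * Real.exp (-(R * w ^ 2)))
        = ((0.86:ℝ)⁻¹ * Mw (w / 0.86)) * Real.exp (-(R * w ^ 2)) := by ring
      _ ≤ (1.1886 * Mw w) * Real.exp (-(R * w ^ 2)) :=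
          mul_le_mul_of_nonneg_right hM (Real.exp_pos _).le
      _ = _ := by ring

/-- The one-parameter inequality. -/
theorem num_ineq (R : ℝ) (hR : 0 ≤ R) (gam lam : ℝ) (hg : gam ≤ 1.0183) (hl : lam ≤ 0.70711)
    (kap : ℝ) (hk : 0.9238 ≤ kap) :
    (∫ v in (0:ℝ)..(3/4), Mw v * Real.exp (-(R * (v ^ 2 - gam * v ^ 4)))) +
      (∫ v in (3/4:ℝ)..1, Mw v * Real.exp (-(R * (v ^ 2 - lam * v ^ 4)))) <
      (1 + kap) * ∫ v in (0:ℝ)..(3/4), Mw v * Real.exp (-(R * v ^ 2)) := by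
  have hc := continuous_Mw
  have cont : ∀ (p : ℝ → ℝ), Continuous p → ∀ a b : ℝ,
      IntervalIntegrable (fun v => Mw v * Real.exp (-(R * p v))) volume a b := by
    intro p hp a b
    apply Continuous.intervalIntegrable
    fun_prop
  have cg : Continuous (fun v : ℝ => v ^ 2 - gam * v ^ 4) := by fun_prop
  have cl : Continuous (fun v : ℝ => v ^ 2 - lam * v ^ 4) := by fun_prop
  have c2 : Continuous (fun v : ℝ => v ^ 2) := by fun_prop
  -- split
  have s1 : ∫ v in (0:ℝ)..(3/4), Mw v * Real.exp (-(R * (v ^ 2 - gam * v ^ 4))) =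
      (∫ v in (0:ℝ)..(1/2), Mw v * Real.exp (-(R * (v ^ 2 - gam * v ^ 4)))) +
      ∫ v in (1/2:ℝ)..(3/4), Mw v * Real.exp (-(R * (v ^ 2 - gam * v ^ 4))) :=
    (intervalIntegral.integral_add_adjacent_intervals (cont _ cg _ _) (cont _ cg _ _)).symm
  have s2 : ∫ v in (3/4:ℝ)..1, Mw v * Real.exp (-(R * (v ^ 2 - lam * v ^ 4))) =
      (∫ v in (3/4:ℝ)..0.85, Mw v * Real.exp (-(R * (v ^ 2 - lam * v ^ 4)))) +
      ∫ v in (0.85:ℝ)..1, Mw v * Real.exp (-(R * (v ^ 2 - lam * v ^ 4))) :=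
    (intervalIntegral.integral_add_adjacent_intervals (cont _ cl _ _) (cont _ cl _ _)).symm
  have s3 : ∫ v in (0:ℝ)..(3/4), Mw v * Real.exp (-(R * v ^ 2)) =
      (∫ v in (0:ℝ)..0.43, Mw v * Real.exp (-(R * v ^ 2))) +
      ((∫ v in (0.43:ℝ)..0.541, Mw v * Real.exp (-(R * v ^ 2))) +
      ((∫ v in (0.541:ℝ)..0.582, Mw v * Real.exp (-(R * v ^ 2))) +
      (∫ v in (0.582:ℝ)..(3/4), Mw v * Real.exp (-(R * v ^ 2))))) := by
    rw [intervalIntegral.integral_add_adjacent_intervals (cont _ c2 _ _) (cont _ c2 _ _),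
      intervalIntegral.integral_add_adjacent_intervals (cont _ c2 _ _) (cont _ c2 _ _),
      intervalIntegral.integral_add_adjacent_intervals (cont _ c2 _ _) (cont _ c2 _ _)]
  have hlast : 0 ≤ ∫ v in (0.582:ℝ)..(3/4), Mw v * Real.exp (-(R * v ^ 2)) := by
    apply intervalIntegral.integral_nonneg (by norm_num)
    intro v _
    exact mul_nonneg (Mw_pos v).le (Real.exp_pos _).le
  have f1 := first_piece R hR gam hg
  have f2 := integral_exp_le R 0.1849 (1/2) (3/4) hR (by norm_num) _ cg (by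
    intro v hv
    have hx1 : 1/4 ≤ v ^ 2 := by nlinarith [hv.1, hv.2]
    have hx2 : v ^ 2 ≤ 9/16 := by nlinarith [hv.1, hv.2]
    have e4 : v ^ 4 = v ^ 2 * v ^ 2 := by ring
    have e2 : gam * v ^ 4 ≤ 1.0183 * v ^ 4 := mul_le_mul_of_nonneg_right hg (by positivity)
    nlinarith [mul_nonneg (sub_nonneg.mpr hx1) (sub_nonneg.mpr hx2)])
  have f3 := integral_exp_le R 0.338724 (3/4) 0.85 hR (by norm_num) _ cl (by
    intro v hv
    have hx1 : 9/16 ≤ v ^ 2 := by nlinarith [hv.1, hv.2]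
    have hx2 : v ^ 2 ≤ 0.7225 := by nlinarith [hv.1, hv.2]
    have e4 : v ^ 4 = v ^ 2 * v ^ 2 := by ring
    have e2 : lam * v ^ 4 ≤ 0.70711 * v ^ 4 := mul_le_mul_of_nonneg_right hl (by positivity)
    nlinarith [mul_nonneg (sub_nonneg.mpr hx1) (sub_nonneg.mpr hx2)])
  have f4 := integral_exp_le R 0.292681 0.85 1 hR (by norm_num) _ cl (by
    intro v hv
    have hx1 : 0.7225 ≤ v ^ 2 := by nlinarith [hv.1, hv.2]
    have hx2 : v ^ 2 ≤ 1 := by nlinarith [hv.1, hv.2]
    have e4 : v ^ 4 = v ^ 2 * v ^ 2 := by ring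
    have e2 : lam * v ^ 4 ≤ 0.70711 * v ^ 4 := mul_le_mul_of_nonneg_right hl (by positivity)
    nlinarith [mul_nonneg (sub_nonneg.mpr hx1) (sub_nonneg.mpr hx2)])
  have g1 := integral_exp_ge R 0.1849 0 0.43 hR (by norm_num) _ c2 (by
    intro v hv
    nlinarith [hv.1, hv.2])
  have g2 := integral_exp_ge R 0.292681 0.43 0.541 hR (by norm_num) _ c2 (by
    intro v hv
    nlinarith [hv.1, hv.2])
  have g3 := integral_exp_ge R 0.338724 0.541 0.582 hR (by norm_num) _ c2 (by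
    intro v hv
    nlinarith [hv.1, hv.2])
  rw [integral_Mw] at f2 f3 f4 g1 g2 g3
  have x12 : Real.exp (-(R * 0.292681)) ≤ Real.exp (-(R * 0.1849)) := by
    apply Real.exp_le_exp.mpr; nlinarith
  have x23 : Real.exp (-(R * 0.338724)) ≤ Real.exp (-(R * 0.292681)) := by
    apply Real.exp_le_exp.mpr; nlinarith
  have x3 := Real.exp_pos (-(R * 0.338724))
  set X1 := Real.exp (-(R * 0.1849))
  set X2 := Real.exp (-(R * 0.292681))
  set X3 := Real.exp (-(R * 0.338724))
  rw [s1, s2, s3]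
  set I1 := ∫ v in (0:ℝ)..(1/2), Mw v * Real.exp (-(R * (v ^ 2 - gam * v ^ 4)))
  set I2 := ∫ v in (1/2:ℝ)..(3/4), Mw v * Real.exp (-(R * (v ^ 2 - gam * v ^ 4)))
  set I3 := ∫ v in (3/4:ℝ)..0.85, Mw v * Real.exp (-(R * (v ^ 2 - lam * v ^ 4)))
  set I4 := ∫ v in (0.85:ℝ)..1, Mw v * Real.exp (-(R * (v ^ 2 - lam * v ^ 4)))
  set J1 := ∫ v in (0:ℝ)..0.43, Mw v * Real.exp (-(R * v ^ 2))
  set J2 := ∫ v in (0.43:ℝ)..0.541, Mw v * Real.exp (-(R * v ^ 2))
  set J3 := ∫ v in (0.541:ℝ)..0.582, Mw v * Real.exp (-(R * v ^ 2))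
  set J4 := ∫ v in (0.582:ℝ)..(3/4), Mw v * Real.exp (-(R * v ^ 2))
  norm_num at f1 f2 f3 f4 g1 g2 g3
  have hJ1 : 0 ≤ J1 := by
    apply intervalIntegral.integral_nonneg (by norm_num)
    intro v _
    exact mul_nonneg (Mw_pos v).le (Real.exp_pos _).le
  have hJ2 : 0 ≤ J2 := by
    apply intervalIntegral.integral_nonneg (by norm_num)
    intro v _
    exact mul_nonneg (Mw_pos v).le (Real.exp_pos _).le
  have hJ3 : 0 ≤ J3 := by
    apply intervalIntegral.integral_nonneg (by norm_num)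
    intro v _
    exact mul_nonneg (Mw_pos v).le (Real.exp_pos _).le
  have hJ : 0 ≤ J1 + (J2 + (J3 + J4)) := by positivity
  have hkk : 1.9238 * (J1 + (J2 + (J3 + J4))) ≤ (1 + kap) * (J1 + (J2 + (J3 + J4))) :=
    mul_le_mul_of_nonneg_right (by linarith) hJ
  refine lt_of_lt_of_le ?_ hkk
  nlinarith

end SC47
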