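import Mathlib
import Pool.Agent.SC47.Basic
import Pool.Agent.SC47.Num

/-!
# SC47: the core lemma
`b_1..b_n` complex, `∑ b = R > 0`, `∑ ‖b‖² ≤ √2 R`, `η` real:
`0 < Re (e^{iχ} ∫_0^1 ∏ (1 - v² b_j) (2 - v²(1 - iη))^{-1/2} dv)`, `χ = arctan η / 4`.
-/

namespace SC47

open Real MeasureTheory intervalIntegral

/-- `2 - v² (1 - iη)` -/
noncomputable def zz (η v : ℝ) : ℂ := ((2 - v ^ 2 : ℝ) : ℂ) + ((v ^ 2 * η : ℝ) : ℂ) * Complex.I

lemma zz_re (η v : ℝ) : (zz η v).re = 2 - v ^ 2 := by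
  simp only [zz, Complex.add_re, Complex.ofReal_re, Complex.mul_re, Complex.I_re,
    Complex.ofReal_im, Complex.I_im]
  ring

lemma zz_im (η v : ℝ) : (zz η v).im = v ^ 2 * η := by
  simp only [zz, Complex.add_im, Complex.ofReal_re, Complex.mul_im, Complex.I_re,
    Complex.ofReal_im, Complex.I_im]
  ring

lemma zz_eq (η v : ℝ) : zz η v = 2 - (v : ℂ) ^ 2 * (1 - (η : ℂ) * Complex.I) := by
  simp only [zz]
  push_cast
  ring

lemma zz_re_pos {η v : ℝ} (hv : v ∈ Set.Icc (0 : ℝ) 1) : 0 < (zz η v).re := by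
  rw [zz_re]
  nlinarith [hv.1, hv.2]

lemma zz_mem {η v : ℝ} (hv : v ∈ Set.Icc (0 : ℝ) 1) : zz η v ∈ Complex.slitPlane :=
  Or.inl (zz_re_pos hv)

lemma zz_ne {η v : ℝ} (hv : v ∈ Set.Icc (0 : ℝ) 1) : zz η v ≠ 0 := by
  intro h
  have := zz_re_pos (η := η) hv
  rw [h] at this
  simp at this

/-- the factor (2 - v²(1-iη))^(-1/2) -/
noncomputable def hh (η v : ℝ) : ℂ := (zz η v) ^ (((-(1 / 2) : ℝ)) : ℂ)

lemma continuous_zz (η : ℝ) : Continuous (zz η) := by unfold zz; fun_prop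

lemma continuousOn_hh (η : ℝ) : ContinuousOn (hh η) (Set.Icc 0 1) := by
  intro v hv
  unfold hh
  exact ((continuous_zz η).continuousAt.cpow continuousAt_const (zz_mem hv)).continuousWithinAt

lemma norm_hh (η v : ℝ) : ‖hh η v‖ = ‖zz η v‖ ^ (-(1 / 2) : ℝ) := by
  unfold hh
  exact Complex.norm_cpow_real _ _

lemma norm_hh_pos {η v : ℝ} (hv : v ∈ Set.Icc (0 : ℝ) 1) : 0 < ‖hh η v‖ := by
  rw [norm_hh]
  exact Real.rpow_pos_of_pos (norm_pos_iff.mpr (zz_ne hv)) _

lemma arg_zz {η v : ℝ} (hv : v ∈ Set.Icc (0 : ℝ) 1) :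
    Complex.arg (zz η v) = Real.arctan (v ^ 2 / (2 - v ^ 2) * η) := by
  have hre := zz_re_pos (η := η) hv
  have h1 : |Complex.arg (zz η v)| < π / 2 := Complex.abs_arg_lt_pi_div_two_iff.mpr (Or.inl hre)
  rw [abs_lt] at h1
  have h2 := Complex.tan_arg (zz η v)
  rw [zz_re, zz_im] at h2
  rw [← Real.arctan_tan h1.1 h1.2, h2]
  congr 1
  ring

lemma angle_bound {η v : ℝ} (hv : v ∈ Set.Icc (0 : ℝ) 1) :
    |Real.arctan η / 4 + Complex.arg (zz η v) * (-(1 / 2))| ≤ π / 8 := by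
  rw [arg_zz hv]
  have ht0 : 0 ≤ v ^ 2 / (2 - v ^ 2) := by
    apply div_nonneg (sq_nonneg v)
    nlinarith [hv.1, hv.2]
  have ht1 : v ^ 2 / (2 - v ^ 2) ≤ 1 := by
    rw [div_le_one (by nlinarith [hv.1, hv.2])]
    nlinarith [hv.1, hv.2]
  set t := v ^ 2 / (2 - v ^ 2)
  have ha := Real.arctan_lt_pi_div_two η
  have hb := Real.neg_pi_div_two_lt_arctan η
  rcases le_total 0 η with h | h
  · have h1 : 0 ≤ Real.arctan (t * η) := Real.arctan_nonneg.mpr (mul_nonneg ht0 h)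
    have h2 : Real.arctan (t * η) ≤ Real.arctan η :=
      Real.arctan_mono (by nlinarith)
    rw [abs_le]
    constructor <;> linarith
  · have h1 : Real.arctan (t * η) ≤ 0 := by
      rw [← Real.arctan_zero]
      exact Real.arctan_mono (mul_nonpos_of_nonneg_of_nonpos ht0 h)
    have h2 : Real.arctan η ≤ Real.arctan (t * η) :=
      Real.arctan_mono (by nlinarith)
    rw [abs_le]
    constructor <;> linarith

lemma re_exp_mul_hh {η v : ℝ} (hv : v ∈ Set.Icc (0 : ℝ) 1) :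
    Real.cos (π / 8) * ‖hh η v‖ ≤
      (Complex.exp (((Real.arctan η / 4 : ℝ) : ℂ) * Complex.I) * hh η v).re := by
  have h1 : (Complex.exp (((Real.arctan η / 4 : ℝ) : ℂ) * Complex.I) * hh η v).re =
      ‖hh η v‖ * Real.cos (Real.arctan η / 4 + Complex.arg (zz η v) * (-(1 / 2))) := by
    rw [norm_hh]
    unfold hh
    rw [Complex.cpow_ofReal, Complex.exp_mul_I, ← Complex.ofReal_cos, ← Complex.ofReal_sin,
      Real.cos_add]
    simp only [Complex.mul_re, Complex.add_re, Complex.ofReal_re, Complex.I_re, Complex.ofReal_im,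
      Complex.I_im, Complex.add_im, Complex.mul_im]
    ring
  rw [h1, mul_comm]
  apply mul_le_mul_of_nonneg_left _ (norm_nonneg _)
  have h2 := angle_bound (η := η) hv
  rw [← Real.cos_abs (Real.arctan η / 4 + _)]
  apply Real.cos_le_cos_of_nonneg_of_le_pi (abs_nonneg _) _ h2
  have := Real.pi_pos
  linarith

/-- the product -/
noncomputable def WW {n : ℕ} (b : Fin n → ℂ) (v : ℝ) : ℂ := ∏ j, (1 - (v : ℂ) ^ 2 * b j)

lemma continuous_WW {n : ℕ} (b : Fin n → ℂ) : Continuous (WW b) := by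
  unfold WW
  fun_prop

section
variable {n : ℕ} {b : Fin n → ℂ} {R : ℝ}

lemma norm_WW_le (hsum : ∑ j, b j = (R : ℂ)) (hsq : ∑ j, ‖b j‖ ^ 2 ≤ √2 * R) (v : ℝ) :
    ‖WW b v‖ ≤ Real.exp (-(R * (v ^ 2 - √2 / 2 * v ^ 4))) := by
  unfold WW
  rw [norm_prod]
  have h1 : ∏ j, ‖1 - (v : ℂ) ^ 2 * b j‖ ≤
      ∏ j, Real.exp (-((v : ℂ) ^ 2 * b j).re + ‖(v : ℂ) ^ 2 * b j‖ ^ 2 / 2) :=
    Finset.prod_le_prod (fun _ _ => norm_nonneg _) (fun j _ => norm_one_sub_le _)
  refine h1.trans ?_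
  rw [← Real.exp_sum]
  apply Real.exp_le_exp.mpr
  rw [Finset.sum_add_distrib, Finset.sum_neg_distrib]
  have h2 : ∑ j, ((v : ℂ) ^ 2 * b j).re = v ^ 2 * R := by
    rw [← Complex.re_sum, ← Finset.mul_sum, hsum]
    have : ((v : ℂ) ^ 2 * (R : ℂ)) = ((v ^ 2 * R : ℝ) : ℂ) := by push_cast; ring
    rw [this, Complex.ofReal_re]
  have h3 : ∑ j, ‖(v : ℂ) ^ 2 * b j‖ ^ 2 / 2 = v ^ 4 / 2 * ∑ j, ‖b j‖ ^ 2 := by
    rw [Finset.mul_sum]
    apply Finset.sum_congr rfl
    intro j _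
    rw [norm_mul, norm_pow, Complex.norm_real, Real.norm_eq_abs, sq_abs]
    ring
  rw [h2, h3]
  have h4 : v ^ 4 / 2 * ∑ j, ‖b j‖ ^ 2 ≤ v ^ 4 / 2 * (√2 * R) :=
    mul_le_mul_of_nonneg_left hsq (by positivity)
  linarith

lemma norm_WW_sub (hsum : ∑ j, b j = (R : ℂ)) (hsq : ∑ j, ‖b j‖ ^ 2 ≤ √2 * R) (v : ℝ) :
    ‖WW b v - (Real.exp (-(R * v ^ 2)) : ℂ)‖ ≤
      Real.exp (-(R * (v ^ 2 - 0.72 * √2 * v ^ 4))) - Real.exp (-(R * v ^ 2)) := by
  let e : Fin n → ℂ := fun j => (1 - (v : ℂ) ^ 2 * b j) * Complex.exp ((v : ℂ) ^ 2 * b j)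
  have h1 : ‖∏ j, e j - 1‖ ≤ Real.exp (∑ j, 0.72 * ‖(v : ℂ) ^ 2 * b j‖ ^ 2) - 1 :=
    norm_prod_sub_one Finset.univ e (fun j => 0.72 * ‖(v : ℂ) ^ 2 * b j‖ ^ 2)
      (fun j _ => norm_factor_sub_one _)
  have h2 : ∏ j, e j = WW b v * Complex.exp (R * (v : ℂ) ^ 2) := by
    simp only [e, WW]
    rw [Finset.prod_mul_distrib, ← Complex.exp_sum, ← Finset.mul_sum, hsum]
    ring_nf
  have h3 : WW b v - (Real.exp (-(R * v ^ 2)) : ℂ) =
      (Real.exp (-(R * v ^ 2)) : ℂ) * (∏ j, e j - 1) := by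
    rw [h2]
    have : (Real.exp (-(R * v ^ 2)) : ℂ) * Complex.exp (R * (v : ℂ) ^ 2) = 1 := by
      push_cast
      rw [← Complex.exp_add]
      ring_nf
      simp
    linear_combination (-(WW b v)) * this
  rw [h3, norm_mul, Complex.norm_real, Real.norm_eq_abs, abs_of_pos (Real.exp_pos _)]
  have h4 : ∑ j, 0.72 * ‖(v : ℂ) ^ 2 * b j‖ ^ 2 ≤ 0.72 * √2 * v ^ 4 * R := by
    have : ∑ j, 0.72 * ‖(v : ℂ) ^ 2 * b j‖ ^ 2 = 0.72 * v ^ 4 * ∑ j, ‖b j‖ ^ 2 := by
      rw [Finset.mul_sum]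
      apply Finset.sum_congr rfl
      intro j _
      rw [norm_mul, norm_pow, Complex.norm_real, Real.norm_eq_abs, sq_abs]
      ring
    rw [this]
    have := mul_le_mul_of_nonneg_left hsq (by positivity : (0:ℝ) ≤ 0.72 * v ^ 4)
    linarith
  have h5 : ‖∏ j, e j - 1‖ ≤ Real.exp (0.72 * √2 * v ^ 4 * R) - 1 :=
    h1.trans (by linarith [Real.exp_le_exp.mpr h4])
  have h6 : Real.exp (-(R * (v ^ 2 - 0.72 * √2 * v ^ 4))) =
      Real.exp (-(R * v ^ 2)) * Real.exp (0.72 * √2 * v ^ 4 * R) := by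
    rw [← Real.exp_add]
    congr 1
    ring
  rw [h6]
  have := mul_le_mul_of_nonneg_left h5 (Real.exp_pos (-(R * v ^ 2))).le
  linarith

end

/-- antitone weight -/
lemma weight_antitone {η v w : ℝ} (hv : v ∈ Set.Icc (0 : ℝ) 1) (hw : w ∈ Set.Icc (0 : ℝ) 1)
    (hvw : v ≤ w) : ‖hh η w‖ / Mw w ≤ ‖hh η v‖ / Mw v := by
  have hu : v ^ 2 ≤ w ^ 2 := by nlinarith [hv.1]
  have hw1 : w ^ 2 ≤ 1 := by nlinarith [hw.1, hw.2]
  have hu0 : 0 ≤ v ^ 2 := sq_nonneg v
  -- (2-u) M² is increasing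
  have m1 : (2 - v ^ 2) * Mw v ^ 2 ≤ (2 - w ^ 2) * Mw w ^ 2 := by
    have e : ∀ x : ℝ, (2 - x ^ 2) * Mw x ^ 2 =
        2 + 5 / 8 * (x ^ 2) ^ 2 - 5 / 16 * (x ^ 2) ^ 3 - 1 / 16 * (x ^ 2) ^ 5 := by
      intro x; unfold Mw; ring
    rw [e, e]
    set a := v ^ 2
    set c := w ^ 2
    have ha1 : a ≤ 1 := hu.trans hw1
    have hc0 : 0 ≤ c := hu0.trans hu
    -- difference = (c - a) * (...)
    have key : 0 ≤ (c - a) * (5 / 8 * (c + a) - 5 / 16 * (c ^ 2 + c * a + a ^ 2) -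
        1 / 16 * (c ^ 4 + c ^ 3 * a + c ^ 2 * a ^ 2 + c * a ^ 3 + a ^ 4)) := by
      apply mul_nonneg (sub_nonneg.mpr hu)
      have p1 : c ^ 2 ≤ c := by nlinarith
      have p2 : a ^ 2 ≤ a := by nlinarith
      have p3 : c * a ≤ (c + a) / 2 := by nlinarith [mul_nonneg hc0 (sub_nonneg.mpr ha1), mul_nonneg hu0 (sub_nonneg.mpr hw1)]
      have p4 : c ^ 4 ≤ c := by nlinarith [pow_le_one₀ hc0 hw1 (n := 3), mul_le_mul_of_nonneg_left (pow_le_one₀ hc0 hw1 (n := 3)) hc0]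
      have p5 : a ^ 4 ≤ a := by nlinarith [mul_le_mul_of_nonneg_left (pow_le_one₀ hu0 ha1 (n := 3)) hu0]
      have q1 : c ^ 2 * a ^ 2 ≤ c * a := by
        have : c * a ≤ 1 := by nlinarith
        nlinarith [mul_nonneg hc0 hu0]
      have q2 : c ^ 3 * a ≤ c * a := by
        have : c ^ 2 ≤ 1 := by nlinarith
        nlinarith [mul_nonneg hc0 hu0]
      have q3 : c * a ^ 3 ≤ c * a := by
        have : a ^ 2 ≤ 1 := by nlinarith
        nlinarith [mul_nonneg hc0 hu0]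
      nlinarith
    nlinarith
  have m2 : Mw v ≤ Mw w := by
    unfold Mw
    nlinarith
  have hMv := Mw_pos v
  have hMw := Mw_pos w
  have nz : ∀ x : ℝ, ‖zz η x‖ ^ 2 = (2 - x ^ 2) ^ 2 + (x ^ 2 * η) ^ 2 := by
    intro x
    rw [← Complex.normSq_eq_norm_sq, Complex.normSq_apply, zz_re, zz_im]
    ring
  have m3 : ‖zz η v‖ * Mw v ^ 2 ≤ ‖zz η w‖ * Mw w ^ 2 := by
    have h1 : (‖zz η v‖ * Mw v ^ 2) ^ 2 ≤ (‖zz η w‖ * Mw w ^ 2) ^ 2 := by
      rw [mul_pow, mul_pow, nz, nz]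
      have e1 : ((2 - v ^ 2) * Mw v ^ 2) ^ 2 ≤ ((2 - w ^ 2) * Mw w ^ 2) ^ 2 := by
        apply pow_le_pow_left₀ _ m1
        have : 0 ≤ 2 - v ^ 2 := by linarith
        positivity
      have e2 : (v ^ 2 * Mw v ^ 2) ^ 2 ≤ (w ^ 2 * Mw w ^ 2) ^ 2 := by
        apply pow_le_pow_left₀ (by positivity)
        exact mul_le_mul hu (pow_le_pow_left₀ hMv.le m2 2) (by positivity) (by positivity)
      have e3 := mul_le_mul_of_nonneg_right e2 (sq_nonneg η)
      nlinarith
    exact abs_le_of_sq_le_sq' h1 (by positivity) |>.2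
  -- rewrite
  have key : ∀ x ∈ Set.Icc (0:ℝ) 1, ‖hh η x‖ / Mw x = (‖zz η x‖ * Mw x ^ 2) ^ (-(1 / 2) : ℝ) := by
    intro x hx
    rw [norm_hh, Real.mul_rpow (norm_nonneg _) (by positivity)]
    have : (Mw x ^ 2) ^ (-(1 / 2) : ℝ) = (Mw x)⁻¹ := by
      rw [← Real.rpow_natCast, ← Real.rpow_mul (Mw_pos x).le]
      norm_num
      rw [Real.rpow_neg_one]
    rw [this]
    rfl
  rw [key v hv, key w hw]
  apply Real.rpow_le_rpow_of_nonpos _ m3 (by norm_num)
  exact mul_pos (norm_pos_iff.mpr (zz_ne hv)) (by positivity)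


/-- auxiliary: change of sign point -/
lemma gam_le : 0.72 * √2 ≤ 1.0183 := by
  have : √2 ≤ 1.41422 := by
    rw [Real.sqrt_le_left (by norm_num)]
    norm_num
  linarith

lemma lam_le : √2 / 2 ≤ 0.70711 := by
  have : √2 ≤ 1.41422 := by
    rw [Real.sqrt_le_left (by norm_num)]
    norm_num
  linarith

/-- weighted inequality -/
lemma weighted_ineq (η R : ℝ) (hR : 0 < R) :
    (∫ v in (3/4:ℝ)..1, ‖hh η v‖ * Real.exp (-(R * (v ^ 2 - √2 / 2 * v ^ 4)))) <
      ∫ v in (0:ℝ)..(3/4), ‖hh η v‖ * ((1 + Real.cos (π / 8)) * Real.exp (-(R * v ^ 2)) -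
        Real.exp (-(R * (v ^ 2 - 0.72 * √2 * v ^ 4)))) := by
  set kap := Real.cos (π / 8) with hkap
  have hk : 0.9238 ≤ kap := cos_pi_div_eight_ge
  set gam := 0.72 * √2 with hgam
  set lam := √2 / 2 with hlam
  have hgpos : 0 < gam := by positivity
  let g1 : ℝ → ℝ := fun v => (1 + kap) * Real.exp (-(R * v ^ 2)) -
    Real.exp (-(R * (v ^ 2 - gam * v ^ 4)))
  let g2 : ℝ → ℝ := fun v => Real.exp (-(R * (v ^ 2 - lam * v ^ 4)))
  have hcM := continuous_Mw
  have cg1 : Continuous g1 := by fun_prop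
  have cg2 : Continuous g2 := by fun_prop
  have hcn : ContinuousOn (fun v => ‖hh η v‖) (Set.Icc 0 1) := (continuousOn_hh η).norm
  -- sign change
  set X := Real.log (1 + kap) / (gam * R) with hX
  have hXpos : 0 < X := by
    apply div_pos (Real.log_pos (by linarith)) (mul_pos hgpos hR)
  set v0 := min (3/4:ℝ) (√(√X)) with hv0
  have hv0mem : v0 ∈ Set.Icc (0:ℝ) 1 := by
    constructor
    · exact le_min (by norm_num) (Real.sqrt_nonneg _)
    · exact (min_le_left _ _).trans (by norm_num)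
  have hv034 : v0 ≤ 3/4 := min_le_left _ _
  have sg1 : ∀ v ∈ Set.Icc (0:ℝ) (3/4), v ≤ v0 → 0 ≤ g1 v := by
    intro v hv hvv
    have h1 : v ≤ √(√X) := hvv.trans (min_le_right _ _)
    have h2 : v ^ 4 ≤ X := by
      have : v ^ 2 ≤ √X := by
        rw [Real.le_sqrt hv.1 (Real.sqrt_nonneg _)] at h1
        exact h1
      have h3 : (v ^ 2) ^ 2 ≤ X := by
        rw [Real.le_sqrt (sq_nonneg v) hXpos.le] at this
        exact this
      calc v ^ 4 = (v ^ 2) ^ 2 := by ring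
        _ ≤ X := h3
    have h3 : R * (gam * v ^ 4) ≤ Real.log (1 + kap) := by
      have : gam * R * v ^ 4 ≤ gam * R * X := mul_le_mul_of_nonneg_left h2 (by positivity)
      have e : gam * R * X = Real.log (1 + kap) := by
        rw [hX]; field_simp
      linarith
    have h4 : Real.exp (R * (gam * v ^ 4)) ≤ 1 + kap := by
      rw [← Real.exp_log (by linarith : 0 < 1 + kap)]
      exact Real.exp_le_exp.mpr h3
    have h5 : Real.exp (-(R * (v ^ 2 - gam * v ^ 4))) =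
        Real.exp (R * (gam * v ^ 4)) * Real.exp (-(R * v ^ 2)) := by
      rw [← Real.exp_add]; congr 1; ring
    simp only [g1]
    rw [h5, ← sub_mul]
    exact mul_nonneg (by linarith) (Real.exp_pos _).le
  have sg2 : ∀ v ∈ Set.Icc (0:ℝ) (3/4), v0 ≤ v → g1 v ≤ 0 ∨ v = v0 := by
    intro v hv hvv
    rcases eq_or_lt_of_le hvv with h | h
    · right; exact h.symm
    · left
      have h1 : √(√X) < v := by
        rcases min_lt_iff.mp h with h' | h'
        · exact absurd hv.2 (not_le.mpr h')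
        · exact h'
      have h2 : X ≤ v ^ 4 := by
        have ha : √X ≤ v ^ 2 := by
          rw [Real.sqrt_lt' (lt_of_le_of_lt (Real.sqrt_nonneg _) h1)] at h1
          exact h1.le
        have hb : X ≤ (v ^ 2) ^ 2 := by
          rw [← Real.sq_sqrt hXpos.le]
          exact pow_le_pow_left₀ (Real.sqrt_nonneg _) ha 2
        calc X ≤ (v ^ 2) ^ 2 := hb
          _ = v ^ 4 := by ring
      have h3 : Real.log (1 + kap) ≤ R * (gam * v ^ 4) := by
        have : gam * R * X ≤ gam * R * v ^ 4 := mul_le_mul_of_nonneg_left h2 (by positivity)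
        have e : gam * R * X = Real.log (1 + kap) := by
          rw [hX]; field_simp
        linarith
      have h4 : 1 + kap ≤ Real.exp (R * (gam * v ^ 4)) := by
        rw [← Real.exp_log (by linarith : 0 < 1 + kap)]
        exact Real.exp_le_exp.mpr h3
      have h5 : Real.exp (-(R * (v ^ 2 - gam * v ^ 4))) =
          Real.exp (R * (gam * v ^ 4)) * Real.exp (-(R * v ^ 2)) := by
        rw [← Real.exp_add]; congr 1; ring
      simp only [g1]
      rw [h5, ← sub_mul]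
      exact mul_nonpos_of_nonpos_of_nonneg (by linarith) (Real.exp_pos _).le
  set ρ0 := ‖hh η v0‖ / Mw v0 with hρ0
  have hρ0pos : 0 < ρ0 := div_pos (norm_hh_pos hv0mem) (Mw_pos _)
  have sub34 : Set.uIcc (0:ℝ) (3/4) ⊆ Set.Icc 0 1 := by
    rw [Set.uIcc_of_le (by norm_num)]
    exact Set.Icc_subset_Icc le_rfl (by norm_num)
  have sub41 : Set.uIcc (3/4:ℝ) 1 ⊆ Set.Icc 0 1 := by
    rw [Set.uIcc_of_le (by norm_num)]
    exact Set.Icc_subset_Icc (by norm_num) le_rfl
  have i1 : IntervalIntegrable (fun v => ‖hh η v‖ * g1 v) volume 0 (3/4) :=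
    ((hcn.mono sub34).mul cg1.continuousOn).intervalIntegrable
  have i2 : IntervalIntegrable (fun v => ‖hh η v‖ * g2 v) volume (3/4) 1 :=
    ((hcn.mono sub41).mul cg2.continuousOn).intervalIntegrable
  have hsplit : ∀ v, ‖hh η v‖ = ‖hh η v‖ / Mw v * Mw v := by
    intro v; field_simp [(Mw_pos v).ne']
  have lower : ρ0 * ∫ v in (0:ℝ)..(3/4), Mw v * g1 v ≤ ∫ v in (0:ℝ)..(3/4), ‖hh η v‖ * g1 v := by
    rw [← intervalIntegral.integral_const_mul]
    apply intervalIntegral.integral_mono_on (by norm_num)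
    · apply Continuous.intervalIntegrable; fun_prop
    · exact i1
    · intro v hv
      have hvm : v ∈ Set.Icc (0:ℝ) 1 := ⟨hv.1, hv.2.trans (by norm_num)⟩
      rw [hsplit v]
      have hM := Mw_pos v
      rcases le_total v v0 with h | h
      · have h1 := weight_antitone (η := η) hvm hv0mem h
        have h2 := sg1 v hv h
        have : 0 ≤ Mw v * g1 v := mul_nonneg hM.le h2
        calc ρ0 * (Mw v * g1 v) ≤ (‖hh η v‖ / Mw v) * (Mw v * g1 v) :=
              mul_le_mul_of_nonneg_right h1 this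
          _ = _ := by ring
      · rcases sg2 v hv h with h2 | h2
        · have h1 := weight_antitone (η := η) hv0mem hvm h
          have : Mw v * g1 v ≤ 0 := mul_nonpos_of_nonneg_of_nonpos hM.le h2
          calc ρ0 * (Mw v * g1 v) ≤ (‖hh η v‖ / Mw v) * (Mw v * g1 v) :=
                mul_le_mul_of_nonpos_right h1 this
            _ = _ := by ring
        · rw [h2, ← hρ0]
          apply le_of_eq; ring
  have upper : ∫ v in (3/4:ℝ)..1, ‖hh η v‖ * g2 v ≤ ρ0 * ∫ v in (3/4:ℝ)..1, Mw v * g2 v := by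
    rw [← intervalIntegral.integral_const_mul]
    apply intervalIntegral.integral_mono_on (by norm_num)
    · exact i2
    · apply Continuous.intervalIntegrable; fun_prop
    · intro v hv
      have hvm : v ∈ Set.Icc (0:ℝ) 1 := ⟨le_trans (by norm_num) hv.1, hv.2⟩
      rw [hsplit v]
      have hM := Mw_pos v
      have h1 := weight_antitone (η := η) hv0mem hvm (hv034.trans hv.1)
      have : 0 ≤ Mw v * g2 v := mul_nonneg hM.le (Real.exp_pos _).le
      calc ‖hh η v‖ / Mw v * Mw v * g2 v = (‖hh η v‖ / Mw v) * (Mw v * g2 v) := by ring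
        _ ≤ ρ0 * (Mw v * g2 v) := mul_le_mul_of_nonneg_right h1 this
  have num := num_ineq R hR.le gam lam gam_le lam_le kap hk
  have e1 : ∫ v in (0:ℝ)..(3/4), Mw v * g1 v =
      (1 + kap) * (∫ v in (0:ℝ)..(3/4), Mw v * Real.exp (-(R * v ^ 2))) -
      ∫ v in (0:ℝ)..(3/4), Mw v * Real.exp (-(R * (v ^ 2 - gam * v ^ 4))) := by
    rw [← intervalIntegral.integral_const_mul, ← intervalIntegral.integral_sub]
    · apply intervalIntegral.integral_congr
      intro v _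
      simp only [g1]
      ring
    · apply Continuous.intervalIntegrable; fun_prop
    · apply Continuous.intervalIntegrable; fun_prop
  have e2 : ∫ v in (3/4:ℝ)..1, Mw v * g2 v < ∫ v in (0:ℝ)..(3/4), Mw v * g1 v := by
    rw [e1]
    simp only [g2]
    linarith
  calc _ ≤ ρ0 * ∫ v in (3/4:ℝ)..1, Mw v * g2 v := upper
    _ < ρ0 * ∫ v in (0:ℝ)..(3/4), Mw v * g1 v := mul_lt_mul_of_pos_left e2 hρ0pos
    _ ≤ _ := lower

/-- Core lemma (with `hh`). -/
theorem core' {n : ℕ} (b : Fin n → ℂ) (R η : ℝ) (hR : 0 < R) (hsum : ∑ j, b j = (R : ℂ))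
    (hsq : ∑ j, ‖b j‖ ^ 2 ≤ √2 * R) :
    0 < (Complex.exp (((Real.arctan η / 4 : ℝ) : ℂ) * Complex.I) *
      ∫ v in (0:ℝ)..1, WW b v * hh η v).re := by
  set c := Complex.exp (((Real.arctan η / 4 : ℝ) : ℂ) * Complex.I) with hc
  have hcnorm : ‖c‖ = 1 := by rw [hc]; exact Complex.norm_exp_ofReal_mul_I _
  have hcont : ContinuousOn (fun v => WW b v * hh η v) (Set.Icc 0 1) :=
    (continuous_WW b).continuousOn.mul (continuousOn_hh η)
  have hcont2 : ContinuousOn (fun v => (c * (WW b v * hh η v)).re) (Set.Icc 0 1) :=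
    Complex.continuous_re.comp_continuousOn (continuousOn_const.mul hcont)
  have hre : (c * ∫ v in (0:ℝ)..1, WW b v * hh η v).re =
      ∫ v in (0:ℝ)..1, (c * (WW b v * hh η v)).re := by
    rw [← intervalIntegral.integral_const_mul]
    have hint : IntervalIntegrable (fun v => c * (WW b v * hh η v)) volume 0 1 := by
      apply ContinuousOn.intervalIntegrable
      rw [Set.uIcc_of_le (by norm_num : (0:ℝ) ≤ 1)]
      exact continuousOn_const.mul hcont
    have := (Complex.reCLM.intervalIntegral_comp_comm hint)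
    simpa using this.symm
  rw [hre]
  have j1 : IntervalIntegrable (fun v => (c * (WW b v * hh η v)).re) volume 0 (3/4) := by
    apply (hcont2.mono _).intervalIntegrable
    rw [Set.uIcc_of_le (by norm_num)]
    exact Set.Icc_subset_Icc le_rfl (by norm_num)
  have j2 : IntervalIntegrable (fun v => (c * (WW b v * hh η v)).re) volume (3/4) 1 := by
    apply (hcont2.mono _).intervalIntegrable
    rw [Set.uIcc_of_le (by norm_num)]
    exact Set.Icc_subset_Icc (by norm_num) le_rfl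
  rw [← intervalIntegral.integral_add_adjacent_intervals j1 j2]
  have hcn : ContinuousOn (fun v => ‖hh η v‖) (Set.Icc 0 1) := (continuousOn_hh η).norm
  have l1 : ∫ v in (0:ℝ)..(3/4), ‖hh η v‖ * ((1 + Real.cos (π / 8)) * Real.exp (-(R * v ^ 2)) -
        Real.exp (-(R * (v ^ 2 - 0.72 * √2 * v ^ 4)))) ≤
      ∫ v in (0:ℝ)..(3/4), (c * (WW b v * hh η v)).re := by
    apply intervalIntegral.integral_mono_on (by norm_num)
    · apply ContinuousOn.intervalIntegrable
      apply ContinuousOn.mul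
      · apply hcn.mono
        rw [Set.uIcc_of_le (by norm_num)]
        exact Set.Icc_subset_Icc le_rfl (by norm_num)
      · apply Continuous.continuousOn; fun_prop
    · exact j1
    · intro v hv
      have hvm : v ∈ Set.Icc (0:ℝ) 1 := ⟨hv.1, hv.2.trans (by norm_num)⟩
      have h1 := re_exp_mul_hh (η := η) hvm
      have h2 := norm_WW_sub hsum hsq v
      rw [← hc] at h1
      set D := WW b v - (Real.exp (-(R * v ^ 2)) : ℂ) with hD
      have e : c * (WW b v * hh η v) = (Real.exp (-(R * v ^ 2)) : ℂ) * (c * hh η v) +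
          c * hh η v * D := by rw [hD]; ring
      rw [e, Complex.add_re, Complex.re_ofReal_mul]
      have h3 : -‖hh η v‖ * ‖D‖ ≤ (c * hh η v * D).re := by
        have h4 := Complex.abs_re_le_norm (c * hh η v * D)
        rw [norm_mul, norm_mul, hcnorm, one_mul] at h4
        have := (abs_le.mp h4).1
        linarith
      have h5 : ‖hh η v‖ * ‖D‖ ≤ ‖hh η v‖ * (Real.exp (-(R * (v ^ 2 - 0.72 * √2 * v ^ 4))) -
          Real.exp (-(R * v ^ 2))) := mul_le_mul_of_nonneg_left h2 (norm_nonneg _)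
      have h6 : Real.exp (-(R * v ^ 2)) * (Real.cos (π / 8) * ‖hh η v‖) ≤
          Real.exp (-(R * v ^ 2)) * (c * hh η v).re :=
        mul_le_mul_of_nonneg_left h1 (Real.exp_pos _).le
      nlinarith
  have l2 : -∫ v in (3/4:ℝ)..1, ‖hh η v‖ * Real.exp (-(R * (v ^ 2 - √2 / 2 * v ^ 4))) ≤
      ∫ v in (3/4:ℝ)..1, (c * (WW b v * hh η v)).re := by
    rw [← intervalIntegral.integral_neg]
    apply intervalIntegral.integral_mono_on (by norm_num)
    · apply ContinuousOn.intervalIntegrable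
      apply ContinuousOn.neg
      apply ContinuousOn.mul
      · apply hcn.mono
        rw [Set.uIcc_of_le (by norm_num)]
        exact Set.Icc_subset_Icc (by norm_num) le_rfl
      · apply Continuous.continuousOn; fun_prop
    · exact j2
    · intro v hv
      have h2 := norm_WW_le hsum hsq v
      have h4 := Complex.abs_re_le_norm (c * (WW b v * hh η v))
      rw [norm_mul, norm_mul, hcnorm, one_mul] at h4
      have h5 := (abs_le.mp h4).1
      have h6 := mul_le_mul_of_nonneg_right h2 (norm_nonneg (hh η v))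
      linarith
  have w := weighted_ineq η R hR
  linarith

end SC47
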